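import Pool.Agent.Lib.MP_947bc0_nt.Cyc86

/-! Asymptotic form of the upper bound (MP_947bc0). -/

namespace Pool.Agent.Lib.MP_947bc0_nt

open Filter

theorem totient_sq (n : ℕ) : (0 < n → n ≤ 2 * n.totient ^ 2) ∧ (¬ 2 ∣ n → n ≤ n.totient ^ 2) := by
  induction n using Nat.recOnPosPrimePosCoprime with
  | prime_pow p k hp hk =>
    obtain ⟨j, rfl⟩ : ∃ j, k = j + 1 := ⟨k - 1, by omega⟩
    have h0 : (p ^ (j + 1)).totient = p ^ j * (p - 1) := by
      rw [Nat.totient_prime_pow_succ hp]
    rw [h0]
    obtain ⟨r, hr⟩ : ∃ r, p = r + 1 := ⟨p - 1, by have := hp.two_le; omega⟩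
    have hr1 : 1 ≤ r := by have := hp.two_le; omega
    have hpj : 1 ≤ p ^ j := Nat.one_le_pow _ _ hp.pos
    have e : p - 1 = r := by omega
    rw [e]
    have hle : p ≤ 2 * r ^ 2 := by nlinarith
    constructor
    · intro _
      calc p ^ (j + 1) = p ^ j * p := pow_succ _ _
        _ ≤ p ^ j * p ^ j * (2 * r ^ 2) := by
            nlinarith [Nat.mul_le_mul hpj hle, Nat.mul_le_mul (Nat.mul_le_mul hpj (le_refl (p ^ j))) hle]
        _ = 2 * (p ^ j * r) ^ 2 := by ring
    · intro h2
      have hr2 : 2 ≤ r := by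
        by_contra hc
        have : p = 2 := by omega
        rw [this] at h2
        exact h2 (dvd_pow_self 2 (by omega))
      have hle2 : p ≤ r ^ 2 := by nlinarith
      calc p ^ (j + 1) = p ^ j * p := pow_succ _ _
        _ ≤ p ^ j * p ^ j * (r ^ 2) := by
            nlinarith [Nat.mul_le_mul (Nat.mul_le_mul hpj (le_refl (p ^ j))) hle2]
        _ = (p ^ j * r) ^ 2 := by ring
  | zero => simp
  | one => simp
  | coprime a b ha hb hab iha ihb =>
    rw [Nat.totient_mul hab]
    have ha2 := iha.1 (by omega)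
    have hb2 := ihb.1 (by omega)
    constructor
    · intro _
      by_cases h : 2 ∣ a
      · have hb3 : ¬ 2 ∣ b := by
          intro h2
          have := Nat.dvd_gcd h h2
          rw [hab] at this
          omega
        have := ihb.2 hb3
        calc a * b ≤ (2 * a.totient ^ 2) * b.totient ^ 2 := Nat.mul_le_mul ha2 this
          _ = 2 * (a.totient * b.totient) ^ 2 := by ring
      · have := iha.2 h
        calc a * b ≤ a.totient ^ 2 * (2 * b.totient ^ 2) := Nat.mul_le_mul this hb2
          _ = 2 * (a.totient * b.totient) ^ 2 := by ring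
    · intro h
      have h1 : ¬ 2 ∣ a := fun h2 => h (h2.mul_right b)
      have h2 : ¬ 2 ∣ b := fun h2 => h (h2.mul_left a)
      calc a * b ≤ a.totient ^ 2 * b.totient ^ 2 := Nat.mul_le_mul (iha.2 h1) (ihb.2 h2)
        _ = (a.totient * b.totient) ^ 2 := by ring

theorem loglog : Tendsto (fun F : ℝ => Real.log (Real.log F) / Real.log F) atTop (nhds 0) :=
  (Real.isLittleO_log_id_atTop.tendsto_div_nhds_zero).comp Real.tendsto_log_atTop

theorem real_key (a : ℝ) (ha : Real.log 2 / 2 < a) : ∀ᶠ F : ℝ in atTop, ∀ u : ℝ,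
    1 ≤ u → u * Real.log F + (u * Real.log u - u) ≤ F * Real.log 2 + Real.log 4 →
      u ≤ a * F / Real.log F := by
  have l2 : 0 < Real.log 2 := Real.log_pos (by norm_num)
  have ha0 : 0 < a := by linarith
  have hinv : Tendsto (fun F : ℝ => (1 - Real.log a) / Real.log F) atTop (nhds 0) :=
    tendsto_const_nhds.div_atTop Real.tendsto_log_atTop
  have hinv2 : Tendsto (fun F : ℝ => Real.log 4 / F) atTop (nhds 0) :=
    tendsto_const_nhds.div_atTop tendsto_id
  have hlim : Tendsto (fun F : ℝ => a * (2 - (Real.log (Real.log F) / Real.log F +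
      (1 - Real.log a) / Real.log F)) - Real.log 4 / F) atTop (nhds (2 * a)) := by
    have := ((tendsto_const_nhds (x := (2 : ℝ))).sub (loglog.add hinv)).const_mul a |>.sub hinv2
    simpa [mul_comm] using this
  have hev := (tendsto_order.1 hlim).1 (Real.log 2) (by linarith)
  filter_upwards [hev, eventually_gt_atTop (Real.exp 1)] with F hF hFe u hu hle
  have hF0 : 0 < F := lt_trans (Real.exp_pos 1) hFe
  have hL : 1 < Real.log F := by
    rw [Real.lt_log_iff_exp_lt hF0]
    exact hFe
  have hL0 : 0 < Real.log F := by linarith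
  by_contra hc
  rw [not_le] at hc
  have hu0 : 0 < u := by linarith
  have hlogu : Real.log a + Real.log F - Real.log (Real.log F) ≤ Real.log u := by
    rw [← Real.log_mul ha0.ne' hF0.ne', ← Real.log_div (by positivity) hL0.ne']
    exact Real.log_le_log (by positivity) hc.le
  set L := Real.log F with hLdef
  have hB : a * (2 - (Real.log L / L + (1 - Real.log a) / L)) =
      a / L * (2 * L - Real.log L + Real.log a - 1) := by
    field_simp
    ring
  have hB1 : Real.log 2 + Real.log 4 / F < a / L * (2 * L - Real.log L + Real.log a - 1) := by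
    rw [← hB]
    linarith
  have h4 : 0 < Real.log 4 := Real.log_pos (by norm_num)
  have hBpos : 0 < 2 * L - Real.log L + Real.log a - 1 := by
    have h5 : 0 < a / L * (2 * L - Real.log L + Real.log a - 1) := by
      have : 0 < Real.log 4 / F := by positivity
      linarith
    exact (pos_iff_pos_of_mul_pos h5).1 (by positivity)
  have h6 : u * (2 * L - Real.log L + Real.log a - 1) ≤ u * L + (u * Real.log u - u) := by
    have := mul_le_mul_of_nonneg_left hlogu hu0.le
    nlinarith
  have h7 : a * F / L * (2 * L - Real.log L + Real.log a - 1) <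
      u * (2 * L - Real.log L + Real.log a - 1) := mul_lt_mul_of_pos_right hc hBpos
  have h8 : F * (Real.log 2 + Real.log 4 / F) <
      F * (a / L * (2 * L - Real.log L + Real.log a - 1)) := mul_lt_mul_of_pos_left hB1 hF0
  have h9 : F * (Real.log 2 + Real.log 4 / F) = F * Real.log 2 + Real.log 4 := by
    field_simp
  have h10 : F * (a / L * (2 * L - Real.log L + Real.log a - 1)) =
      a * F / L * (2 * L - Real.log L + Real.log a - 1) := by
    ring
  linarith

theorem log_factorial (u : ℕ) (hu : 1 ≤ u) :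
    (u : ℝ) * Real.log u - u ≤ Real.log (u.factorial : ℝ) := by
  have h := Stirling.le_factorial_stirling u
  have hu0 : (0 : ℝ) < u := by exact_mod_cast hu
  have h1 : (1 : ℝ) ≤ √(2 * Real.pi * u) := by
    rw [Real.one_le_sqrt]
    have : (1 : ℝ) ≤ u := by exact_mod_cast hu
    nlinarith [Real.pi_gt_three]
  have h2 : ((u : ℝ) / Real.exp 1) ^ u ≤ (u.factorial : ℝ) := by
    refine le_trans ?_ h
    exact le_mul_of_one_le_left (by positivity) h1
  have h3 := Real.log_le_log (by positivity) h2
  rw [Real.log_pow, Real.log_div hu0.ne' (Real.exp_pos 1).ne', Real.log_exp] at h3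
  linarith

theorem asy86 (ε : ℝ) (hε : 0 < ε) : ∃ d₀ : ℕ, ∀ d : ℕ, d₀ ≤ d →
    (om d : ℝ) ≤ (Real.log 2 / 2 + ε) * d.totient / Real.log d.totient := by
  have hev := real_key (Real.log 2 / 2 + ε / 2) (by linarith)
  have hlim : Tendsto (fun F : ℝ => Real.log F / F) atTop (nhds 0) :=
    Real.isLittleO_log_id_atTop.tendsto_div_nhds_zero
  have hev2 := (tendsto_order.1 hlim).2 (ε / 2) (by linarith)
  obtain ⟨X, hX⟩ := eventually_atTop.1 ((hev.and hev2).and (eventually_gt_atTop (Real.exp 1)))
  refine ⟨2 * (⌈X⌉₊) ^ 2 + 1, fun d hd => ?_⟩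
  have hd0 : 0 < d := by omega
  have hphi : X ≤ (d.totient : ℝ) := by
    have h1 := (totient_sq d).1 hd0
    have h2 : (⌈X⌉₊) ^ 2 ≤ d.totient ^ 2 := by nlinarith
    have h3 : ⌈X⌉₊ ≤ d.totient := by
      by_contra hc
      rw [not_le] at hc
      have := Nat.pow_lt_pow_left hc (n := 2) (by norm_num)
      omega
    exact (Nat.le_ceil X).trans (by exact_mod_cast h3)
  obtain ⟨⟨h1, h2⟩, h3⟩ := hX _ hphi
  set F : ℝ := (d.totient : ℝ) with hFdef
  have hF0 : 0 < F := lt_trans (Real.exp_pos 1) h3
  have hL : 1 < Real.log F := by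
    rw [Real.lt_log_iff_exp_lt hF0]
    exact h3
  have hL0 : 0 < Real.log F := by linarith
  have hone : 1 ≤ ε / 2 * F / Real.log F := by
    rw [le_div_iff₀ hL0, one_mul]
    rw [div_lt_iff₀ hF0] at h2
    exact h2.le
  have l2 : 0 < Real.log 2 := Real.log_pos (by norm_num)
  have hsplit : (Real.log 2 / 2 + ε) * F / Real.log F =
      (Real.log 2 / 2 + ε / 2) * F / Real.log F + ε / 2 * F / Real.log F := by
    ring
  rw [hsplit]
  rcases Nat.lt_or_ge (om d) 2 with hw | hw
  · have h5 : (om d : ℝ) ≤ 1 := by exact_mod_cast (by omega : om d ≤ 1)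
    have h6 : 0 ≤ (Real.log 2 / 2 + ε / 2) * F / Real.log F := by positivity
    linarith
  · have hu : 1 ≤ om d - 1 := by omega
    have hu1 : (1 : ℝ) ≤ ((om d - 1 : ℕ) : ℝ) := by exact_mod_cast hu
    have hmain := main_ineq d hd0
    have hreal : ((d : ℝ) ^ (om d - 1) * ((om d - 1).factorial : ℝ)) ≤ 4 * 2 ^ d.totient := by
      exact_mod_cast hmain
    have hdpos : (0 : ℝ) < d := by exact_mod_cast hd0
    have hfpos : (0 : ℝ) < ((om d - 1).factorial : ℝ) := by
      exact_mod_cast Nat.factorial_pos _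
    have hlog := Real.log_le_log (by positivity) hreal
    rw [Real.log_mul (by positivity) hfpos.ne', Real.log_mul (by norm_num) (by positivity),
      Real.log_pow, Real.log_pow] at hlog
    have hFd : Real.log F ≤ Real.log d :=
      Real.log_le_log hF0 (by rw [hFdef]; exact_mod_cast Nat.totient_le d)
    have hlf := log_factorial (om d - 1) hu
    have h7 : ((om d - 1 : ℕ) : ℝ) * Real.log F ≤ ((om d - 1 : ℕ) : ℝ) * Real.log d :=
      mul_le_mul_of_nonneg_left hFd (by linarith)
    have h8 := h1 _ hu1 (by rw [← hFdef] at hlog; linarith)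
    have h9 : (om d : ℝ) = ((om d - 1 : ℕ) : ℝ) + 1 := by
      rw [Nat.cast_sub (by omega)]
      simp
    linarith

end Pool.Agent.Lib.MP_947bc0_nt
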