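import Mathlib

/-! Upper bound for the number of prime factors of cyclotomic values at 2 (MP_947bc0). -/

namespace Pool.Agent.Lib.MP_947bc0_nt

open Polynomial Finset

/-- the Euler product at 1/2 is at least 1/4 -/
theorem prod_ge (N : ℕ) (hN : 1 ≤ N) :
    (1 / 4 : ℝ) + (1 / 2) ^ (N + 1) ≤ ∏ e ∈ Finset.Icc 1 N, (1 - (1 / 2 : ℝ) ^ e) := by
  induction N, hN using Nat.le_induction with
  | base => norm_num
  | succ n hn ih =>
    rw [Finset.prod_Icc_succ_top (by omega)]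
    have h1 : (0 : ℝ) < (1 / 2) ^ (n + 1) := by positivity
    have h2 : ((1 : ℝ) / 2) ^ (n + 1) ≤ 1 / 4 := by
      calc ((1 : ℝ) / 2) ^ (n + 1) ≤ (1 / 2) ^ 2 :=
            pow_le_pow_of_le_one (by norm_num) (by norm_num) (by omega)
        _ = 1 / 4 := by norm_num
    have h3 : (0 : ℝ) ≤ 1 - (1 / 2) ^ (n + 1) := by linarith
    refine le_trans ?_ (mul_le_mul_of_nonneg_right ih h3)
    have h4 : ((1 : ℝ) / 2) ^ (n + 1 + 1) = (1 / 2) ^ (n + 1) * (1 / 2) := pow_succ _ _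
    rw [h4]
    nlinarith

theorem eval_eq (n : ℕ) (hn : 0 < n) :
    eval 2 (cyclotomic n ℝ) =
      ∏ x ∈ n.divisorsAntidiagonal, ((2 : ℝ) ^ x.2 - 1) ^ ArithmeticFunction.moebius x.1 := by
  have h := (ArithmeticFunction.prod_eq_iff_prod_pow_moebius_eq_of_nonzero
    (f := fun i => eval 2 (cyclotomic i ℝ)) (g := fun n => (2 : ℝ) ^ n - 1)
    (fun n _ => (cyclotomic_pos' n (by norm_num)).ne')
    (fun n hn => by
      have : (1 : ℝ) < 2 ^ n := one_lt_pow₀ (by norm_num) (by omega)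
      linarith)).1 ?_ n hn
  · exact h.symm
  · intro m hm
    have := congrArg (eval (2 : ℝ)) (prod_cyclotomic_eq_X_pow_sub_one hm ℝ)
    rw [eval_prod] at this
    simpa using this

theorem two_eq (n : ℕ) (hn : 0 < n) :
    (2 : ℝ) ^ n.totient =
      ∏ x ∈ n.divisorsAntidiagonal, ((2 : ℝ) ^ x.2) ^ ArithmeticFunction.moebius x.1 := by
  have h := (ArithmeticFunction.prod_eq_iff_prod_pow_moebius_eq_of_nonzero
    (f := fun i => (2 : ℝ) ^ i.totient) (g := fun n => (2 : ℝ) ^ n)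
    (fun n _ => by positivity) (fun n _ => by positivity)).1 ?_ n hn
  · exact h.symm
  · intro m _
    rw [Finset.prod_pow_eq_pow_sum, Nat.sum_totient]

theorem eval_le (n : ℕ) (hn : 0 < n) : eval 2 (cyclotomic n ℝ) ≤ 4 * 2 ^ n.totient := by
  rw [eval_eq n hn, two_eq n hn, ← div_le_iff₀ (by positivity), ← Finset.prod_div_distrib]
  have h1 : ∀ x ∈ n.divisorsAntidiagonal, ((2 : ℝ) ^ x.2 - 1) ^ ArithmeticFunction.moebius x.1 /
      ((2 : ℝ) ^ x.2) ^ ArithmeticFunction.moebius x.1 ≤ (1 - (1 / 2 : ℝ) ^ x.2)⁻¹ := by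
    intro x hx
    have hx2 : x.2 ≠ 0 := (Nat.ne_zero_of_mem_divisorsAntidiagonal hx).2
    rw [← div_zpow]
    have e : ((2 : ℝ) ^ x.2 - 1) / 2 ^ x.2 = 1 - (1 / 2) ^ x.2 := by
      rw [sub_div, div_self (by positivity), one_div, ← inv_pow, one_div]
    rw [e]
    have hlt : ((1 : ℝ) / 2) ^ x.2 < 1 := pow_lt_one₀ (by norm_num) (by norm_num) hx2
    have hpos : (0 : ℝ) < (1 / 2) ^ x.2 := by positivity
    have ht0 : (0 : ℝ) < 1 - (1 / 2) ^ x.2 := by linarith
    have ht1 : 1 - ((1 : ℝ) / 2) ^ x.2 ≤ 1 := by linarith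
    have hmu : -1 ≤ ArithmeticFunction.moebius x.1 :=
      (abs_le.1 (ArithmeticFunction.abs_moebius_le_one)).1
    have := zpow_le_zpow_right_of_le_one₀ ht0 ht1 hmu
    rwa [zpow_neg_one] at this
  refine (Finset.prod_le_prod (fun x hx => ?_) h1).trans ?_
  · have hx2 : x.2 ≠ 0 := (Nat.ne_zero_of_mem_divisorsAntidiagonal hx).2
    have : (1 : ℝ) < 2 ^ x.2 := one_lt_pow₀ (by norm_num) hx2
    have h0 : (0 : ℝ) < 2 ^ x.2 - 1 := by linarith
    positivity
  · rw [Nat.prod_divisorsAntidiagonal' (f := fun _ e => (1 - (1 / 2 : ℝ) ^ e)⁻¹)]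
    have hsub : n.divisors ⊆ Finset.Icc 1 n := by
      intro e he
      rw [Finset.mem_Icc]
      exact ⟨Nat.pos_of_mem_divisors he, Nat.divisor_le he⟩
    rw [Finset.prod_inv_distrib]
    have hf : ∀ e ∈ Finset.Icc 1 n, (0 : ℝ) < 1 - (1 / 2) ^ e ∧ (1 : ℝ) - (1 / 2) ^ e ≤ 1 := by
      intro e he
      have he1 := (Finset.mem_Icc.1 he).1
      have hlt : ((1 : ℝ) / 2) ^ e < 1 := pow_lt_one₀ (by norm_num) (by norm_num) (by omega)
      have hpos : (0 : ℝ) < (1 / 2) ^ e := by positivity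
      exact ⟨by linarith, by linarith⟩
    have hge := prod_ge n hn
    have hp : (0 : ℝ) < (1 / 2) ^ (n + 1) := by positivity
    have h5 : ∏ e ∈ Finset.Icc 1 n, (1 - (1 / 2 : ℝ) ^ e) ≤ ∏ e ∈ n.divisors, (1 - (1 / 2 : ℝ) ^ e) := by
      rw [← Finset.prod_sdiff hsub]
      have h6 : ∏ e ∈ Finset.Icc 1 n \ n.divisors, (1 - (1 / 2 : ℝ) ^ e) ≤ 1 :=
        Finset.prod_le_one (fun e he => (hf e (Finset.mem_sdiff.1 he).1).1.le)
          (fun e he => (hf e (Finset.mem_sdiff.1 he).1).2)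
      have h7 : (0 : ℝ) ≤ ∏ e ∈ n.divisors, (1 - (1 / 2 : ℝ) ^ e) :=
        Finset.prod_nonneg fun e he => (hf e (hsub he)).1.le
      calc _ ≤ 1 * ∏ e ∈ n.divisors, (1 - (1 / 2 : ℝ) ^ e) := mul_le_mul_of_nonneg_right h6 h7
        _ = _ := one_mul _
    have h4 : (1 / 4 : ℝ) ≤ ∏ e ∈ n.divisors, (1 - (1 / 2 : ℝ) ^ e) := by linarith
    calc (∏ e ∈ n.divisors, (1 - (1 / 2 : ℝ) ^ e))⁻¹ ≤ (1 / 4 : ℝ)⁻¹ :=
          inv_anti₀ (by norm_num) h4
      _ = 4 := by norm_num

/-- the value at 2 as a natural number -/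
noncomputable def val (d : ℕ) : ℕ := (eval 2 (cyclotomic d ℤ)).natAbs

theorem val_cast (d : ℕ) : ((val d : ℕ) : ℤ) = eval 2 (cyclotomic d ℤ) := by
  rw [val, Int.natAbs_of_nonneg (cyclotomic_pos' d (by norm_num)).le]

theorem val_pos (d : ℕ) : 0 < val d := by
  have := cyclotomic_pos' (R := ℤ) (x := 2) d (by norm_num)
  have h := val_cast d
  omega

theorem val_real (d : ℕ) : ((val d : ℕ) : ℝ) = eval 2 (cyclotomic d ℝ) := by
  have h := congrArg (Int.cast : ℤ → ℝ) (val_cast d)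
  rw [Int.cast_natCast] at h
  rw [h, ← map_cyclotomic_int d ℝ]
  have := eval_intCast_map (Int.castRingHom ℝ) (cyclotomic d ℤ) 2
  simpa using this.symm

theorem val_le (d : ℕ) (hd : 0 < d) : val d ≤ 4 * 2 ^ d.totient := by
  have := eval_le d hd
  rw [← val_real] at this
  exact_mod_cast this

theorem val_zmod (d p : ℕ) : ((val d : ℕ) : ZMod p) = eval 2 (cyclotomic d (ZMod p)) := by
  have h := congrArg (Int.cast : ℤ → ZMod p) (val_cast d)
  rw [Int.cast_natCast] at h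
  rw [h, ← map_cyclotomic_int d (ZMod p)]
  have := eval_intCast_map (Int.castRingHom (ZMod p)) (cyclotomic d ℤ) 2
  simpa using this.symm

/-- primes not dividing `d` are `1 mod d` -/
theorem dvd_sub_one (d p : ℕ) (hd : 0 < d) (hp : p.Prime) (h : p ∣ val d) (hpd : ¬ p ∣ d) :
    d ∣ p - 1 := by
  have : Fact p.Prime := ⟨hp⟩
  have : NeZero ((d : ℕ) : ZMod p) := ⟨fun h0 => hpd ((ZMod.natCast_eq_zero_iff _ _).1 h0)⟩
  have h0 : IsRoot (cyclotomic d (ZMod p)) 2 := by
    rw [IsRoot.def, ← val_zmod, ZMod.natCast_eq_zero_iff]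
    exact h
  have h1 : IsPrimitiveRoot (2 : ZMod p) d := isRoot_cyclotomic_iff.1 h0
  have h2 : (2 : ZMod p) ≠ 0 := by
    intro h20
    have := h1.pow_eq_one
    rw [h20, zero_pow (by omega)] at this
    exact zero_ne_one this
  rw [h1.eq_orderOf]
  exact ZMod.orderOf_dvd_card_sub_one h2

theorem val_dvd (d : ℕ) : val d ∣ 2 ^ d - 1 := by
  have h := eval_dvd (x := (2 : ℤ)) (cyclotomic.dvd_X_pow_sub_one d ℤ)
  rw [← val_cast] at h
  have h1 : (eval 2 (X ^ d - 1 : ℤ[X])) = ((2 ^ d - 1 : ℕ) : ℤ) := by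
    rw [Nat.cast_sub Nat.one_le_two_pow]
    simp
  rw [h1] at h
  exact_mod_cast h

theorem val_dvd_sum (d r : ℕ) (hd : 0 < d) (hr : r.Prime) (hrd : r ∣ d) :
    val d ∣ ∑ i ∈ Finset.range r, (2 ^ (d / r)) ^ i := by
  have hmem : d / r ∈ d.properDivisors := by
    rw [Nat.mem_properDivisors]
    exact ⟨Nat.div_dvd_of_dvd hrd, Nat.div_lt_self hd hr.one_lt⟩
  have h := X_pow_sub_one_mul_cyclotomic_dvd_X_pow_sub_one_of_dvd ℤ hmem
  have h1 := eval_dvd (x := (2 : ℤ)) h
  have e : (X ^ d - 1 : ℤ[X]) = (X ^ (d / r) - 1) * ∑ i ∈ Finset.range r, (X ^ (d / r)) ^ i := by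
    rw [mul_geom_sum, ← pow_mul, Nat.div_mul_cancel hrd]
  rw [e, eval_mul, eval_mul, ← val_cast] at h1
  have hne : eval (2 : ℤ) (X ^ (d / r) - 1) ≠ 0 := by
    have hpos : 0 < d / r := Nat.div_pos (Nat.le_of_dvd hd hrd) hr.pos
    have : (1 : ℤ) < 2 ^ (d / r) := one_lt_pow₀ (by norm_num) (by omega)
    simp only [eval_sub, eval_pow, eval_X, eval_one]
    omega
  have h2 := (mul_dvd_mul_iff_left hne).1 h1
  have h3 : eval (2 : ℤ) (∑ i ∈ Finset.range r, (X ^ (d / r)) ^ i)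
      = ((∑ i ∈ Finset.range r, (2 ^ (d / r)) ^ i : ℕ) : ℤ) := by
    rw [eval_finsetSum]
    push_cast
    refine Finset.sum_congr rfl fun i _ => ?_
    simp
  rw [h3] at h2
  exact_mod_cast h2

theorem not_lt_of_dvd (d p r : ℕ) (hd : 0 < d) (hp : p.Prime) (hr : r.Prime) (hrd : r ∣ d)
    (h : p ∣ val d) (hlt : p < r) : False := by
  have : Fact p.Prime := ⟨hp⟩
  have h1 : (2 : ZMod p) ^ d = 1 := by
    have := h.trans (val_dvd d)
    have h2 := (ZMod.natCast_eq_zero_iff _ _).2 this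
    rw [Nat.cast_sub Nat.one_le_two_pow] at h2
    push_cast at h2
    exact sub_eq_zero.1 h2
  have h20 : (2 : ZMod p) ≠ 0 := by
    intro h0
    rw [h0, zero_pow (by omega)] at h1
    exact zero_ne_one h1
  have hm1 : orderOf (2 : ZMod p) ∣ d := orderOf_dvd_of_pow_eq_one h1
  have hm2 : orderOf (2 : ZMod p) ∣ p - 1 := ZMod.orderOf_dvd_card_sub_one h20
  have hp1 : 0 < p - 1 := by have := hp.two_le; omega
  have hmlt : orderOf (2 : ZMod p) < r := by
    have := Nat.le_of_dvd hp1 hm2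
    omega
  have hmpos : 0 < orderOf (2 : ZMod p) := Nat.pos_of_dvd_of_pos hm1 hd
  have hcop : Nat.Coprime (orderOf (2 : ZMod p)) r := by
    rw [Nat.coprime_comm, hr.coprime_iff_not_dvd]
    intro hdiv
    have := Nat.le_of_dvd hmpos hdiv
    omega
  have hme : orderOf (2 : ZMod p) ∣ d / r := by
    have : orderOf (2 : ZMod p) ∣ (d / r) * r := by rwa [Nat.div_mul_cancel hrd]
    exact hcop.dvd_of_dvd_mul_right this
  have h3 : (2 : ZMod p) ^ (d / r) = 1 := orderOf_dvd_iff_pow_eq_one.1 hme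
  have h4 := h.trans (val_dvd_sum d r hd hr hrd)
  have h5 := (ZMod.natCast_eq_zero_iff _ _).2 h4
  push_cast at h5
  rw [h3] at h5
  simp only [one_pow, Finset.sum_const, Finset.card_range, nsmul_eq_mul, mul_one] at h5
  have h6 := (ZMod.natCast_eq_zero_iff _ _).1 h5
  have := (Nat.prime_dvd_prime_iff_eq hp hr).1 h6
  omega

/-- a set of `k` positive integers has product at least `k!` -/
theorem factorial_le_prod (T : Finset ℕ) (hT : ∀ x ∈ T, 1 ≤ x) : T.card.factorial ≤ ∏ x ∈ T, x := by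
  induction T using Finset.induction_on_max with
  | empty => simp
  | insert a s ha ih =>
    have hna : a ∉ s := fun h => lt_irrefl _ (ha a h)
    rw [Finset.card_insert_of_notMem hna, Finset.prod_insert hna, Nat.factorial_succ]
    have h1 : s.card + 1 ≤ a := by
      have hsub : s ⊆ Finset.Ico 1 a := fun x hx =>
        Finset.mem_Ico.2 ⟨hT x (Finset.mem_insert_of_mem hx), ha x hx⟩
      have := Finset.card_le_card hsub
      rw [Nat.card_Ico] at this
      have h1a := hT a (Finset.mem_insert_self a s)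
      omega
    exact Nat.mul_le_mul h1 (ih fun x hx => hT x (Finset.mem_insert_of_mem hx))

/-- number of distinct prime factors of the value at 2 -/
noncomputable def om (d : ℕ) : ℕ := (val d).primeFactors.card

theorem card_split (d : ℕ) (hd : 0 < d) :
    om d - 1 ≤ ((val d).primeFactors.filter (fun p => ¬ p ∣ d)).card := by
  have h1 : ((val d).primeFactors.filter (fun p => p ∣ d)).card ≤ 1 := by
    rw [Finset.card_le_one]
    intro p hp r hr
    rw [Finset.mem_filter] at hp hr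
    have pp := Nat.prime_of_mem_primeFactors hp.1
    have pr := Nat.prime_of_mem_primeFactors hr.1
    have dp := Nat.dvd_of_mem_primeFactors hp.1
    have dr := Nat.dvd_of_mem_primeFactors hr.1
    rcases lt_trichotomy p r with h | h | h
    · exact (not_lt_of_dvd d p r hd pp pr hr.2 dp h).elim
    · exact h
    · exact (not_lt_of_dvd d r p hd pr pp hp.2 dr h).elim
  have h2 := Finset.card_filter_add_card_filter_not (s := (val d).primeFactors) (fun p => p ∣ d)
  rw [om]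
  omega

/-- the explicit inequality -/
theorem main_ineq (d : ℕ) (hd : 0 < d) :
    d ^ (om d - 1) * (om d - 1).factorial ≤ 4 * 2 ^ d.totient := by
  set S := (val d).primeFactors.filter (fun p => ¬ p ∣ d) with hS
  have hcard := card_split d hd
  rw [← hS] at hcard
  have hp : ∀ p ∈ S, p.Prime ∧ d * ((p - 1) / d) ≤ p ∧ 1 ≤ (p - 1) / d ∧ d * ((p - 1) / d) = p - 1 := by
    intro p hpS
    rw [hS, Finset.mem_filter] at hpS
    have pp := Nat.prime_of_mem_primeFactors hpS.1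
    have h1 := dvd_sub_one d p hd pp (Nat.dvd_of_mem_primeFactors hpS.1) hpS.2
    have h2 := Nat.mul_div_cancel' h1
    have h3 := pp.two_le
    refine ⟨pp, by omega, ?_, h2⟩
    exact Nat.div_pos (Nat.le_of_dvd (by omega) h1) hd
  have hinj : Set.InjOn (fun p : ℕ => (p - 1) / d) S := by
    intro p hpS r hrS h
    have h1 := (hp p hpS).2.2.2
    have h2 := (hp r hrS).2.2.2
    simp only at h
    rw [h] at h1
    have := (hp p hpS).1.two_le
    have := (hp r hrS).1.two_le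
    omega
  have hprod : d ^ S.card * S.card.factorial ≤ ∏ p ∈ S, p := by
    have h1 : ∏ p ∈ S, (d * ((p - 1) / d)) ≤ ∏ p ∈ S, p :=
      Finset.prod_le_prod' fun p hpS => (hp p hpS).2.1
    rw [Finset.prod_mul_distrib, Finset.prod_const] at h1
    refine le_trans (Nat.mul_le_mul_left _ ?_) h1
    have h2 := factorial_le_prod (S.image fun p => (p - 1) / d) (by
      intro x hx
      obtain ⟨p, hpS, rfl⟩ := Finset.mem_image.1 hx
      exact (hp p hpS).2.2.1)
    rw [Finset.card_image_of_injOn hinj, Finset.prod_image hinj] at h2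
    exact h2
  have hdvd : ∏ p ∈ S, p ∣ val d :=
    (Finset.prod_dvd_prod_of_subset _ _ _ (Finset.filter_subset _ _)).trans
      (Nat.prod_primeFactors_dvd (val d))
  calc d ^ (om d - 1) * (om d - 1).factorial ≤ d ^ S.card * S.card.factorial :=
        Nat.mul_le_mul (Nat.pow_le_pow_right hd hcard) (Nat.factorial_le hcard)
    _ ≤ ∏ p ∈ S, p := hprod
    _ ≤ val d := Nat.le_of_dvd (val_pos d) hdvd
    _ ≤ 4 * 2 ^ d.totient := val_le d hd

end Pool.Agent.Lib.MP_947bc0_nt
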